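import Pool.Agent.Helper39_SF.X_Final

/-!
Totally geodesic chains for all spherical space forms of dimension n at least 2k and
cohomogeneity at most k.
-/

open Pool.Agent.Helper39_SF

/-- Let k and n be natural numbers with n at least 1 and at least 2k, and let M be a spherical
space form of dimension n whose cohomogeneity is at most k. Then there are a number h at least 1
and spherical space forms N 0, N 1, ... of dimensions n, n + h, n + 2h, ..., with N 0 isometric
to M, and distance preserving maps from each N i to the next one, such that the union of the
chain, with the direct limit topology, is a classifying space of a finite group and such that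
for every i the orbit space of N i under its full isometry group is isometric to that of M. -/
theorem Pool.Agent.Results.MP_e2979e_gt.SpaceForms.result
    (k n : ℕ) (hn : 1 ≤ n) (hk : 2 * k ≤ n) (M : Type) [MetricSpace M]
    (hM : IsSphericalSpaceForm n M) (hc : CohomogeneityLe n k M) :
    ∃ h : ℕ, 1 ≤ h ∧ HasChain n h M :=
  main_theorem k n hn hk M hM hc
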